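import Pool.Agent.FF.Main
import Pool.Agent.FF.Insert
import Pool.Agent.TBS.LabK

/-!
# Two-bend drawings of graphs with at most four neighbours before and after every vertex

Let `G` be a finite simple graph of maximum degree at most 6 such that

1. its vertices can be placed at different points of a line such that every vertex has at most four
   neighbours on its left and at most four neighbours on its right (for example, if the bandwidth
   of `G` is at most 4); or
2. every nonempty set `T` of vertices of degree at least 5 contains a vertex `v` with at most
   `8 - degree v` neighbours in `T` (for example, if the vertices of degree 5 and 6 induce a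
   2-degenerate graph).

Then `G` has a 3D orthogonal point-drawing with at most two bends per edge, and even one in general
position.

The class (1) contains graphs with `n` vertices and `3 n - 3` edges, and this is the largest number
of edges of a graph with a 2-bend drawing in general position.

Proof.  (2) implies (1): insert the vertices one by one, those of degree at most 4 first, such that
every vertex `v` has at least `degree v - 4` neighbours on both sides when it is inserted.

In case (1) call a vertex with four neighbours after it an up vertex, and the first of them `m(v)`;
a vertex with four neighbours before it is a down vertex, the last of them is `m(v)`.  One may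
assume that `m(v)` is not a down vertex for an up vertex `v` and not an up vertex for a down vertex
`v`.
* There are labels in `Fin 3` for the half-edges, different on the two halves of an edge, such that
  the halves at `v` to neighbours after it have different labels, and so have the halves to
  neighbours before it, where for an up vertex `v` the half to `m(v)` is counted with the latter and
  for a down vertex with the former.  Moreover with `c(v)` for the label of the half at `v` to
  `m(v)`: `c(v) ≠ c(m(v))` if `v`, `m(v)` are of the same kind, and `c(v) ≠ c(v')` if `v ≠ v'` are of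
  the same kind and `m(v) = m(v')`.  First the `c(v)` are chosen greedily.  The rest is a list
  colouring problem for the other half-edges in which every list is at least as long as the number
  of conflicts.  If it had no solution, the uncoloured half-edge (hole) of a colouring of as many
  as possible could be moved through a whole component; this shows that the component is a tree in
  which all leaves are of a certain kind with the same forbidden colour, and this is avoided by the
  choice of the `c(v)`.
* Such labels satisfy the condition of `TBS.valid_of_K` (every set `W` of at least two vertices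
  contains for every label `a` and every `w` in `W` a vertex other than `w` with at most one
  half-edge of label `a` leading to `W`), which gives the coordinates of the vertices; the routes
  are those of `TB.drawing`.
-/

set_option autoImplicit false

namespace Pool.Agent.Results.MP_dadc3d_co.FourBeforeFourAfter

open Finset

/-- `x` is a lattice point of the axis-parallel segment from `p` to `q` (as in the frozen
statement). -/
def Seg (p q x : Fin 3 → ℤ) : Prop :=
  ∃ i : Fin 3, (∀ j : Fin 3, j ≠ i → x j = p j ∧ q j = p j) ∧
      ((p i ≤ x i ∧ x i ≤ q i) ∨ (q i ≤ x i ∧ x i ≤ p i))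

/-- Every graph of maximum degree at most 6 has a 3D orthogonal point-drawing in general position
with at most two bends per edge if its vertices can be placed on a line such that every vertex has
at most four neighbours on both sides, or if every nonempty set `T` of vertices of degree at least 5
contains a vertex `v` with at most `8 - degree v` neighbours in `T`.  (`b₁ u v` and `b₂ u v` are the
bends of the edge `uv`, segments may be degenerate.) -/
theorem result :
    ∀ (V : Type) [Fintype V] (G : SimpleGraph V) [DecidableRel G.Adj],
    (∀ v, G.degree v ≤ 6) →
    ((∃ p : V → ℚ, Function.Injective p ∧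
        (∀ v, (univ.filter fun w => G.Adj v w ∧ p w < p v).card ≤ 4) ∧
        (∀ v, (univ.filter fun w => G.Adj v w ∧ p v < p w).card ≤ 4)) ∨
      (∀ T : Finset V, T.Nonempty → (∀ v ∈ T, 5 ≤ G.degree v) →
        ∃ v ∈ T, G.degree v + (T.filter fun w => G.Adj v w).card ≤ 8)) →
    ∃ (f : V → Fin 3 → ℤ) (b₁ b₂ : V → V → Fin 3 → ℤ),
      (∀ (a : Fin 3) (u v : V), f u a = f v a → u = v) ∧
      Function.Injective f ∧
      (∀ u v, G.Adj u v →
        (∃ i : Fin 3, ∀ j : Fin 3, j ≠ i → f u j = b₁ u v j) ∧
        (∃ i : Fin 3, ∀ j : Fin 3, j ≠ i → b₁ u v j = b₂ u v j) ∧
        (∃ i : Fin 3, ∀ j : Fin 3, j ≠ i → b₂ u v j = f v j)) ∧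
      (∀ u v w, G.Adj u v →
        (Seg (f u) (b₁ u v) (f w) ∨ Seg (b₁ u v) (b₂ u v) (f w) ∨ Seg (b₂ u v) (f v) (f w)) →
        w = u ∨ w = v) ∧
      (∀ u v u' v' x, G.Adj u v → G.Adj u' v' → s(u, v) ≠ s(u', v') →
        (Seg (f u) (b₁ u v) x ∨ Seg (b₁ u v) (b₂ u v) x ∨ Seg (b₂ u v) (f v) x) →
        (Seg (f u') (b₁ u' v') x ∨ Seg (b₁ u' v') (b₂ u' v') x ∨ Seg (b₂ u' v') (f v') x) →
        ∃ w, x = f w ∧ (w = u ∨ w = v) ∧ (w = u' ∨ w = v')) := by
  classical
  intro V _ G _ hd h
  obtain ⟨p, hp, hl, hr⟩ : ∃ p : V → ℚ, Function.Injective p ∧
      (∀ v, (univ.filter fun w => G.Adj v w ∧ p w < p v).card ≤ 4) ∧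
      (∀ v, (univ.filter fun w => G.Adj v w ∧ p v < p w).card ≤ 4) := by
    rcases h with h | h
    · exact h
    · refine FF.exists_insertion G fun T hT => ?_
      by_cases h5 : ∀ v ∈ T, 5 ≤ G.degree v
      · exact h T hT h5
      · push Not at h5
        obtain ⟨v, hv, hv5⟩ := h5
        refine ⟨v, hv, ?_⟩
        have h1 : (T.filter fun w => G.Adj v w).card ≤ G.degree v := by
          rw [← SimpleGraph.card_neighborFinset_eq_degree]
          refine card_le_card fun w hw => ?_
          rw [mem_filter] at hw
          rw [SimpleGraph.mem_neighborFinset]
          exact hw.2
        omega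
  let _ : LinearOrder V := LinearOrder.lift' p hp
  have hl' : ∀ v, (univ.filter fun w => G.Adj v w ∧ w < v).card ≤ 4 := by
    intro v
    refine (card_le_card fun w hw => ?_).trans (hl v)
    rw [mem_filter] at hw ⊢
    exact hw
  have hr' : ∀ v, (univ.filter fun w => G.Adj v w ∧ v < w).card ≤ 4 := by
    intro v
    refine (card_le_card fun w hw => ?_).trans (hr v)
    rw [mem_filter] at hw ⊢
    exact hw
  obtain ⟨α, h1, h2, h3⟩ := FF.labels G hd hl' hr'
  obtain ⟨P, hP, hv⟩ := TBS.valid_of_K G α h1 h2 h3
  obtain ⟨b₁, b₂, h⟩ := TB.drawing hP α hv
  exact ⟨P, b₁, b₂, hP, h⟩

end Pool.Agent.Results.MP_dadc3d_co.FourBeforeFourAfter
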