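import Pool.Agent.TBS.GenPos

/-!
# Two-bend drawings in general position: a characterisation

A finite simple graph `G` has a 3D orthogonal point-drawing in general position (no two vertices
have a common coordinate) in which every edge has at most two bends if and only if its half-edges
can be labelled with three labels such that

* the two halves of an edge have different labels,
* every label occurs at most twice at every vertex, and
* for every label `a` and every set `W` of at least two vertices there are at least two vertices in
  `W` with at most one half-edge of label `a` leading to a vertex of `W`.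

(So the maximum degree is at most 6.  Counting the half-edges of label `a` inside `W` one sees that
every nonempty `W` spans at most `3 |W| - 3` edges, in particular no 6-regular graph has such a
drawing.  Conversely the third condition holds if at most `2 |W| - 3` edges in `W` carry the
label `a`.)

Proof.  In general position every route has three links in the three directions; the directions of
the first and the last link are the labels.  Routes which leave a vertex in the same direction leave
it to different sides, so every vertex lies strictly between its neighbours of label `a` in the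
order of the `a`-coordinates, and the first and the last vertex of `W` in this order are the two
vertices (`TBS.valid_of_drawing`, `TBS.two_of_valid`, `TBS.ends_of_valid`).  Conversely, for every
label `a` there is a linear order in which every vertex lies between its two neighbours of label `a`
(a directed st-numbering, `TBS.exists_order`); these three orders are the coordinates.  For the
routes one chooses among all labellings which are possible for these coordinates one for which the
total length of the first and the last links is maximal; then there are no crossings
(`TB.drawing`).
-/

set_option autoImplicit false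

namespace Pool.Agent.Results.MP_dadc3d_co.GeneralPosition

open Finset

/-- `x` is a lattice point of the axis-parallel segment from `p` to `q` (as in the frozen
statement). -/
def Seg (p q x : Fin 3 → ℤ) : Prop :=
  ∃ i : Fin 3, (∀ j : Fin 3, j ≠ i → x j = p j ∧ q j = p j) ∧
      ((p i ≤ x i ∧ x i ≤ q i) ∨ (q i ≤ x i ∧ x i ≤ p i))

/-- `G` has a 3D orthogonal point-drawing in general position in which every edge has at most two
bends: distinct integer points `f v`, no two with a common coordinate; for every edge `uv` bends
`b₁ u v`, `b₂ u v` such that `f u`, `b₁ u v`, `b₂ u v`, `f v` are consecutively joined by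
axis-parallel (possibly degenerate) segments; the routes contain no other vertex; the routes of
different edges meet only at a common end. -/
def HasDrawing {V : Type} (G : SimpleGraph V) : Prop :=
    ∃ (f : V → Fin 3 → ℤ) (b₁ b₂ : V → V → Fin 3 → ℤ),
      (∀ (a : Fin 3) (u v : V), f u a = f v a → u = v) ∧
      Function.Injective f ∧
      (∀ u v, G.Adj u v →
        (∃ i : Fin 3, ∀ j : Fin 3, j ≠ i → f u j = b₁ u v j) ∧
        (∃ i : Fin 3, ∀ j : Fin 3, j ≠ i → b₁ u v j = b₂ u v j) ∧
        (∃ i : Fin 3, ∀ j : Fin 3, j ≠ i → b₂ u v j = f v j)) ∧
      (∀ u v w, G.Adj u v →
        (Seg (f u) (b₁ u v) (f w) ∨ Seg (b₁ u v) (b₂ u v) (f w) ∨ Seg (b₂ u v) (f v) (f w)) →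
        w = u ∨ w = v) ∧
      (∀ u v u' v' x, G.Adj u v → G.Adj u' v' → s(u, v) ≠ s(u', v') →
        (Seg (f u) (b₁ u v) x ∨ Seg (b₁ u v) (b₂ u v) x ∨ Seg (b₂ u v) (f v) x) →
        (Seg (f u') (b₁ u' v') x ∨ Seg (b₁ u' v') (b₂ u' v') x ∨ Seg (b₂ u' v') (f v') x) →
        ∃ w, x = f w ∧ (w = u ∨ w = v) ∧ (w = u' ∨ w = v'))

/-- A finite simple graph has a 3D orthogonal point-drawing in general position with at most two
bends per edge if and only if its half-edges have labels in `Fin 3` (`α u v` is the label of the
half-edge at `u` of the edge `uv`) such that the two halves of an edge have different labels, every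
label occurs at most twice at every vertex, and for every label `a` every set `W` of at least two
vertices contains at least two vertices with at most one half-edge of label `a` leading to `W`. -/
theorem result :
    ∀ (V : Type) [Fintype V] [DecidableEq V] (G : SimpleGraph V) [DecidableRel G.Adj],
    HasDrawing G ↔
    ∃ α : V → V → Fin 3,
      (∀ u v, G.Adj u v → α u v ≠ α v u) ∧
      (∀ u a, (univ.filter fun v => G.Adj u v ∧ α u v = a).card ≤ 2) ∧
      ∀ (a : Fin 3) (W : Finset V), 2 ≤ W.card →
        2 ≤ (W.filter fun v => (W.filter fun w => G.Adj v w ∧ α v w = a).card ≤ 1).card := by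
  intro V _ _ G _
  constructor
  · rintro ⟨f, b₁, b₂, hf, -, hl, -, hx⟩
    obtain ⟨α, hα⟩ := TBS.valid_of_drawing hf hl hx
    exact ⟨α, hα.1, TBS.two_of_valid hα, TBS.ends_of_valid hf hα⟩
  · rintro ⟨α, h1, h2, h3⟩
    obtain ⟨P, hP, hv⟩ := TBS.valid_of_K G α h1 h2 (fun a W w _ hW => by
      obtain ⟨v, hv, hvw⟩ := exists_mem_ne (h3 a W hW) w
      exact ⟨v, (mem_filter.1 hv).1, hvw, (mem_filter.1 hv).2⟩)
    obtain ⟨b₁, b₂, h⟩ := TB.drawing hP α hv
    exact ⟨P, b₁, b₂, hP, h⟩

end Pool.Agent.Results.MP_dadc3d_co.GeneralPosition
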