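import Pool.Agent.Z6.Lab
import Pool.Agent.Z6.Ord
import Pool.Agent.TBS.LabK

/-!
# Two-bend drawings of graphs in which no two vertices of degree 6 are adjacent

Every finite simple graph of maximum degree at most 6 in which no two vertices of degree 6 are
adjacent has a 3D orthogonal point-drawing with at most two bends per edge, and even one in general
position (no two vertices have a common coordinate).

This contains Wood's theorem (maximum degree at most 5), and all bipartite graphs of maximum degree 6
in which all degrees on one side are at most 5 (for example `K_{5,6}`, which has `3 n - 3` edges, the
largest number possible in general position).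

Proof.
* Place the vertices on a line.  Let `r(u)`, `l(u)` be the numbers of neighbours of `u` on its right
  and left, and `φ(u) = max(r(u), l(u), 3) - 3`.  Take a placement for which the sum of `2 φ(u)` over
  the vertices of degree at most 5 and `3 φ(u)` over the vertices of degree 6 is minimal.  Then all
  vertices of degree 6 have three neighbours on both sides (otherwise move one of them past one
  neighbour).  If `r(u) > 3` call the `r(u) - 3` nearest right neighbours moved, and in the same way
  on the left if `l(u) > 3`.  A neighbour of `u` which is moved to the right has at most three left
  neighbours, and it is not moved to the left for another vertex `d` (otherwise move `u` past this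
  neighbour, or `u` and `d`), and vice versa (`Z6.exists_order`).
* The half-edges are labelled with three labels such that the two halves of every edge have different
  labels, and at every vertex the halves to the right neighbours which are not moved and to the left
  neighbours which are moved have different labels, and so have the halves to the other neighbours;
  moreover if `m` is a moved neighbour of `u` on the right, and `a` the label of the half from `u` to
  `m`, then the halves from `m` and from the right neighbours of `u` nearer than `m` to `u` do not
  have the label `a`, and neither do the halves from `m` to moved right neighbours of `m`; and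
  the same on the left.  Koenig's edge colouring theorem for the bipartite multigraph with the
  vertices `(u, left)`, `(u, right)` gives the labels of all half-edges except those to moved
  neighbours and those to the light side of a vertex with moved neighbours; the labels to moved right
  neighbours are then chosen greedily from the right to the left, those to moved left neighbours from
  the left to the right, and the others last (`Z6.lab`).
* Every set `W` of at least two vertices contains for every label `a` at least two vertices with at
  most one half of label `a` leading to `W`: the leftmost vertex of `W` which has no half of label `a`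
  to a moved right neighbour in `W`, and the rightmost one which has no half of label `a` to a moved
  left neighbour in `W`; if they are the same vertex, then every other one (`Z6.win`).
* Such labels give for every label an order of the vertices such that every vertex lies between its
  two neighbours of this label (`TBS.valid_of_K`); these three orders are the coordinates.  The routes
  are those of `TB.drawing`.
-/

set_option autoImplicit false

namespace Pool.Agent.Results.MP_dadc3d_co.IndependentSix

open Finset

/-- `x` is a lattice point of the axis-parallel segment from `p` to `q` (as in the frozen
statement). -/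
def Seg (p q x : Fin 3 → ℤ) : Prop :=
  ∃ i : Fin 3, (∀ j : Fin 3, j ≠ i → x j = p j ∧ q j = p j) ∧
      ((p i ≤ x i ∧ x i ≤ q i) ∨ (q i ≤ x i ∧ x i ≤ p i))

/-- Every graph of maximum degree at most 6 in which no two vertices of degree 6 are adjacent has a
3D orthogonal point-drawing in general position with at most two bends per edge.  (`b₁ u v` and
`b₂ u v` are the bends of the edge `uv`, segments may be degenerate.) -/
theorem result :
    ∀ (V : Type) [Fintype V] (G : SimpleGraph V) [DecidableRel G.Adj],
    (∀ v, G.degree v ≤ 6) →
    (∀ u v, G.degree u = 6 → G.degree v = 6 → ¬ G.Adj u v) →
    ∃ (f : V → Fin 3 → ℤ) (b₁ b₂ : V → V → Fin 3 → ℤ),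
      (∀ (a : Fin 3) (u v : V), f u a = f v a → u = v) ∧
      Function.Injective f ∧
      (∀ u v, G.Adj u v →
        (∃ i : Fin 3, ∀ j : Fin 3, j ≠ i → f u j = b₁ u v j) ∧
        (∃ i : Fin 3, ∀ j : Fin 3, j ≠ i → b₁ u v j = b₂ u v j) ∧
        (∃ i : Fin 3, ∀ j : Fin 3, j ≠ i → b₂ u v j = f v j)) ∧
      (∀ u v w, G.Adj u v →
        (Seg (f u) (b₁ u v) (f w) ∨ Seg (b₁ u v) (b₂ u v) (f w) ∨ Seg (b₂ u v) (f v) (f w)) →
        w = u ∨ w = v) ∧
      (∀ u v u' v' x, G.Adj u v → G.Adj u' v' → s(u, v) ≠ s(u', v') →
        (Seg (f u) (b₁ u v) x ∨ Seg (b₁ u v) (b₂ u v) x ∨ Seg (b₂ u v) (f v) x) →
        (Seg (f u') (b₁ u' v') x ∨ Seg (b₁ u' v') (b₂ u' v') x ∨ Seg (b₂ u' v') (f v') x) →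
        ∃ w, x = f w ∧ (w = u ∨ w = v) ∧ (w = u' ∨ w = v')) := by
  classical
  intro V _ G _ hd hI
  obtain ⟨p, hp, h0, h1, h1', h3⟩ := Z6.exists_order G hd hI
  obtain ⟨α, a1, a2, a3⟩ := Z6.lab G p hd hp h0 h1 h1' h3
  obtain ⟨P, hP, hv⟩ := TBS.valid_of_K G α a1 a2 a3
  obtain ⟨b₁, b₂, h⟩ := TB.drawing hP α hv
  exact ⟨P, b₁, b₂, hP, h⟩

end Pool.Agent.Results.MP_dadc3d_co.IndependentSix
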