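import Pool.Agent.TBS.RedO
import Pool.Agent.TBS.Stack

/-!
# Two-bend drawings of graphs which are reducible to graphs without a `K_5`-minor

Let `G` be a finite simple graph of maximum degree at most 6 which can be reduced, by deleting
vertices with at most three neighbours and by replacing vertices with exactly four neighbours by an
edge between two of these which are not adjacent, to a graph `H` which can be built from the empty
graph by repeatedly adding a set `B` of new vertices to the set `A` of old ones such that there are
`C` in `A`, which contains all neighbours of `B` in `A`, and three linear orders of `B ∪ C` with the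
following properties: for every edge `xy` with `x` in `B` and every other `z` in `B ∪ C` some order
has `z` above `x` and `y`; for every edge `xc` with `x` in `B` and `c` in `C` at least two orders have
`x` above `c`.  Then `G` has a 3D orthogonal point-drawing with at most two bends per edge, and even
one in general position (no two vertices have a common coordinate).

The class of the graphs `H` contains all planar graphs (`A = C = ∅`: Schnyder's criterion) and all
graphs without a `K_5`-minor (Schnyder, Wagner).  Reducible to the empty graph are all 3-degenerate
graphs, more generally all graphs whose 4-core (largest subgraph of minimum degree at least 4)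
contains no `K_5` and has fractional arboricity at most 5/2 (`TBS.red_of_core`).  Reducible to a
planar graph are all graphs without a subdivision of `K_5` whose topological minors of minimum degree
at least 5 are planar, in particular all graphs of treewidth at most 4 without a subdivision of `K_5`.

Proof.
* In a building step direct the edge `xy` from `x` to `y` if `y` is above `x` in at most one order; so
  all edges between `B` and `A` are directed towards `A`, and all outdegrees are at most 3, and every
  set `S` of at least two vertices, at most one of them in `A`, has `∑ (2 - d(v))^+ ≥ 3` where `d(v)` is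
  the outdegree of `v` inside `S` (`TBS.OrdExt.ori`).  Together these orientations are an orientation
  of `H` with outdegrees at most 3 with this property for all sets `S` of at least two vertices
  (`TBS.OriOn.ext`).
* Such an orientation gives labels of the half-edges with three labels, each label twice at every
  vertex (auxiliary pairs of half-edges make the graph 6-regular), different at the two ends of every
  edge, such that every set `S` of at least two vertices contains at most `2 |S| - 3` half-edges of
  each label inside `S` (`TBS.gd_of_ori`, by an exchange argument of Davies and McDiarmid).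
* Going back through the reductions one constructs such labels for `G` (`TBS.mainO`).  For every label
  there is then a linear order of the vertices in which every vertex lies between its two neighbours
  of this label (`TBS.exists_order`); these three orders are the coordinates.  The routes are those
  of `TB.drawing`.
-/

set_option autoImplicit false

namespace Pool.Agent.Results.MP_dadc3d_co.ReducibleGraphs

open Finset

/-- `x` is a lattice point of the axis-parallel segment from `p` to `q` (as in the frozen
statement). -/
def Seg (p q x : Fin 3 → ℤ) : Prop :=
  ∃ i : Fin 3, (∀ j : Fin 3, j ≠ i → x j = p j ∧ q j = p j) ∧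
      ((p i ≤ x i ∧ x i ≤ q i) ∨ (q i ≤ x i ∧ x i ≤ p i))

/-- Three linear orders of `B ∪ C` (given by functions which are injective on `B ∪ C`) such that for
every edge `xy` with `x` in `B` and `y` in `B ∪ C` and every other `z` in `B ∪ C` some order has `z`
above `x` and `y`, and for every edge `xc` with `x` in `B` and `c` in `C` at least two orders have
`x` above `c`.  If `C` is empty this is Schnyder's criterion for the planarity of `G[B]`. -/
def RootedOrders {V : Type} [DecidableEq V] (G : SimpleGraph V) (B C : Finset V) : Prop :=
  ∃ r : Fin 3 → V → ℕ, (∀ i, ∀ x ∈ B ∪ C, ∀ y ∈ B ∪ C, r i x = r i y → x = y) ∧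
    (∀ x ∈ B, ∀ y ∈ B ∪ C, ∀ z ∈ B ∪ C, G.Adj x y → z ≠ x → z ≠ y →
      ∃ i, r i x < r i z ∧ r i y < r i z) ∧
    ∀ x ∈ B, ∀ c ∈ C, G.Adj x c → ∃ i j, i ≠ j ∧ r i c < r i x ∧ r j c < r j x

/-- `Built G A`: the graph induced by `G` on `A` can be built from the empty graph by repeatedly
adding a set `B` of new vertices to the set `A` of old vertices, where `RootedOrders G B C` holds for
some `C` in `A` which contains all neighbours of `B` in `A`. -/
inductive Built {V : Type} [DecidableEq V] (G : SimpleGraph V) : Finset V → Prop
  | empty : Built G ∅
  | orders {A B C : Finset V} : Built G A → Disjoint A B → C ⊆ A →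
      (∀ b ∈ B, ∀ a ∈ A, G.Adj b a → a ∈ C) → RootedOrders G B C → Built G (A ∪ B)

open Classical in
/-- `Reducible A G`: the graph induced by `G` on `A` can be reduced to a graph as in `Built` by
repeatedly deleting a vertex with at most three neighbours, or replacing a vertex `v` with exactly
four neighbours by an edge between two of these, `s` and `t`, which are not adjacent. -/
inductive Reducible {V : Type} [DecidableEq V] : Finset V → SimpleGraph V → Prop
  | built {A : Finset V} {G : SimpleGraph V} : Built G A → Reducible A G
  | delete {A : Finset V} {G : SimpleGraph V} {v : V} : v ∈ A →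
      (A.filter fun u => G.Adj v u).card ≤ 3 → Reducible (A.erase v) G → Reducible A G
  | replace {A : Finset V} {G : SimpleGraph V} {v s t : V} : v ∈ A → s ∈ A → t ∈ A → s ≠ t →
      G.Adj v s → G.Adj v t → ¬ G.Adj s t → (A.filter fun u => G.Adj v u).card = 4 →
      Reducible (A.erase v) (G ⊔ SimpleGraph.edge s t) → Reducible A G

/-- Let `G` be a graph of maximum degree at most 6 which is reducible as in `Reducible`.  Then `G` has
a 3D orthogonal point-drawing in general position in which every edge has at most two bends. -/
theorem result :
    ∀ (V : Type) [Fintype V] [DecidableEq V] (G : SimpleGraph V) [DecidableRel G.Adj],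
    G.maxDegree ≤ 6 → Reducible univ G →
    ∃ (f : V → Fin 3 → ℤ) (b₁ b₂ : V → V → Fin 3 → ℤ),
      (∀ (a : Fin 3) (u v : V), f u a = f v a → u = v) ∧
      Function.Injective f ∧
      (∀ u v, G.Adj u v →
        (∃ i : Fin 3, ∀ j : Fin 3, j ≠ i → f u j = b₁ u v j) ∧
        (∃ i : Fin 3, ∀ j : Fin 3, j ≠ i → b₁ u v j = b₂ u v j) ∧
        (∃ i : Fin 3, ∀ j : Fin 3, j ≠ i → b₂ u v j = f v j)) ∧
      (∀ u v w, G.Adj u v →
        (Seg (f u) (b₁ u v) (f w) ∨ Seg (b₁ u v) (b₂ u v) (f w) ∨ Seg (b₂ u v) (f v) (f w)) →
        w = u ∨ w = v) ∧
      (∀ u v u' v' x, G.Adj u v → G.Adj u' v' → s(u, v) ≠ s(u', v') →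
        (Seg (f u) (b₁ u v) x ∨ Seg (b₁ u v) (b₂ u v) x ∨ Seg (b₂ u v) (f v) x) →
        (Seg (f u') (b₁ u' v') x ∨ Seg (b₁ u' v') (b₂ u' v') x ∨ Seg (b₂ u' v') (f v') x) →
        ∃ w, x = f w ∧ (w = u ∨ w = v) ∧ (w = u' ∨ w = v')) := by
  intro V _ _ G _ hΔ hG
  have key : ∀ (H : SimpleGraph V) (A : Finset V), Built H A → TBS.OriOn H A := by
    intro H A hA
    induction hA with
    | empty => exact TBS.ori_empty' H
    | orders _ hd hC hN hR ih => exact ih.ext hd (TBS.OrdExt.ori hR hC hN)
  have hcr : ∀ (A : Finset V) (H : SimpleGraph V) (v : V),
      TBS.cr H {v} A = (open Classical in (A.filter fun u => H.Adj v u).card) := by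
    intro A H v
    unfold TBS.cr
    rw [Finset.sum_singleton]
  have hR : ∀ (A : Finset V) (H : SimpleGraph V), Reducible A H → TBS.RedO A H := by
    intro A H h
    induction h with
    | built h => exact TBS.RedO.base _ _ (key _ _ h)
    | delete hv hd _ ih => exact TBS.RedO.del _ _ _ hv (by rw [hcr]; exact hd) ih
    | replace hv hs ht hst as at_ nst hd _ ih =>
      exact TBS.RedO.split _ _ _ _ _ hv hs ht hst as at_ nst (by rw [hcr]; exact hd) ih
  obtain ⟨P, α, hP, hv⟩ := TBS.exists_valid_of_redO G hΔ (hR _ _ hG)
  obtain ⟨b₁, b₂, h⟩ := TB.drawing hP α hv
  exact ⟨P, b₁, b₂, hP, h⟩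

end Pool.Agent.Results.MP_dadc3d_co.ReducibleGraphs
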